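import Pool.Agent.N818.SN.Stm4
import Pool.Agent.N73.SN.J

/-!
# SN2-JD, SN2-JE, SN2-JF (helper507): the number of the solutions of the linear systems

Project SN (helper818), second part. After helper73's `Pool/Agent/N73/SN/J.lean`.
-/

set_option autoImplicit false
set_option linter.all false

open scoped Classical

namespace Pool.Agent.N507.SN

open Finset
open Pool.Agent.N877.P24 (Qc)
open Pool.Agent.N818.SN
open Pool.Agent.N73.SN

/-- The matrix. -/
noncomputable def NG (P : Finset ℕ) (p q : ℕ) : ZMod 2 :=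
  if p = q then ∑ r ∈ P.erase p, lg (r : ℤ) p else lg (q : ℤ) p

variable {P : Finset ℕ}

lemma sum_NG (J : Finset ℕ) (p : ℕ) : ∑ q ∈ J, NG P p q =
    ∑ q ∈ J.erase p, lg (q : ℤ) p + if p ∈ J then ∑ r ∈ P.erase p, lg (r : ℤ) p else 0 := by
  split_ifs with h
  · rw [← sum_erase_add J _ h]
    congr 1
    · refine sum_congr rfl fun q hq => ?_
      rw [NG, if_neg (ne_of_mem_erase hq).symm]
    · rw [NG, if_pos rfl]
  · rw [erase_eq_of_notMem h, add_zero]
    refine sum_congr rfl fun q hq => ?_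
    rw [NG, if_neg]
    rintro rfl
    exact h hq

lemma NG_eq (h : HP P) {p q : ℕ} (hp : p ∈ P) (hq : q ∈ P) : NG P p q = MB P q p := by
  by_cases hpq : p = q
  · subst hpq
    have h1 := MC_eq h hp hp
    rw [z2_sq, MC, if_pos rfl, add_comm] at h1
    rw [NG, if_pos rfl]
    exact add_right_cancel h1
  · rw [NG, if_neg hpq, MB, if_neg (Ne.symm hpq), lg_recip (h.pr q hq) (h.pr p hp) (h.odd q hq)
      (h.odd p hp) (Ne.symm hpq)]

lemma row_NG {p : ℕ} (hp : p ∈ P) : ∑ q ∈ P, NG P p q = 0 := by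
  rw [sum_NG P p, if_pos hp, z2_self]

lemma key_CG (h : HP P) {J : Finset ℕ} (hJ : J ⊆ P) {p : ℕ} (hp : p ∈ P) {e : ℤ}
    (he : ¬ (p : ℤ) ∣ e) :
    ((p ∉ J → IsSquare ((e * ∏ q ∈ J, (q : ℤ) : ℤ) : ZMod p)) ∧
      (p ∈ J → IsSquare (((∏ q ∈ P.erase p, (q : ℤ)) * (e * ∏ q ∈ J.erase p, (q : ℤ)) : ℤ) :
        ZMod p))) ↔ lg e p + ∑ q ∈ J, NG P p q = 0 := by
  have hpp := h.pr p hp
  have hst : ∀ q ∈ J.erase p, ¬ (p : ℤ) ∣ (q : ℤ) := fun q hq =>
    not_dvd_nat hpp (h.pr q (hJ (mem_of_mem_erase hq))) (ne_of_mem_erase hq).symm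
  have hst' : ∀ q ∈ P.erase p, ¬ (p : ℤ) ∣ (q : ℤ) := fun q hq =>
    not_dvd_nat hpp (h.pr q (mem_of_mem_erase hq)) (ne_of_mem_erase hq).symm
  rw [sum_NG J p]
  by_cases hpJ : p ∈ J
  · rw [if_pos hpJ]
    have h4 : ¬ (p : ℤ) ∣ e * ∏ q ∈ J.erase p, (q : ℤ) := fun h6 =>
      ((Nat.prime_iff_prime_int.1 hpp).dvd_or_dvd h6).elim he (not_dvd_prod hpp _ _ hst)
    have h5 : ¬ (p : ℤ) ∣ (∏ q ∈ P.erase p, (q : ℤ)) * (e * ∏ q ∈ J.erase p, (q : ℤ)) := fun h6 =>
      ((Nat.prime_iff_prime_int.1 hpp).dvd_or_dvd h6).elim (not_dvd_prod hpp _ _ hst') h4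
    rw [isSquare_iff hpp h5, lg_mul hpp (not_dvd_prod hpp _ _ hst') h4,
      lg_mul hpp he (not_dvd_prod hpp _ _ hst), lg_prod hpp _ _ hst', lg_prod hpp _ _ hst]
    constructor
    · intro h8
      rw [← h8.2 hpJ]
      ring
    · intro h8
      refine ⟨fun h' => absurd hpJ h', fun _ => ?_⟩
      rw [← h8]
      ring
  · rw [if_neg hpJ, add_zero]
    rw [erase_eq_of_notMem hpJ] at hst ⊢
    have h4 : ¬ (p : ℤ) ∣ e * ∏ q ∈ J, (q : ℤ) := fun h6 =>
      ((Nat.prime_iff_prime_int.1 hpp).dvd_or_dvd h6).elim he (not_dvd_prod hpp _ _ hst)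
    rw [isSquare_iff hpp h4, lg_mul hpp he (not_dvd_prod hpp _ _ hst), lg_prod hpp _ _ hst]
    exact ⟨fun h8 => h8.1 hpJ, fun h8 => ⟨fun _ => h8, fun h' => absurd h' hpJ⟩⟩

lemma CG_iff (h : HP P) {J : Finset ℕ} (hJ : J ⊆ P) (c : ℤ) {e : ℤ}
    (he : ∀ p ∈ P, ¬ (p : ℤ) ∣ e) : CG c e P J ↔
      ∀ p ∈ P, IsSquare (c : ZMod p) → lg e p + ∑ q ∈ J, NG P p q = 0 :=
  ⟨fun h1 p hp h3 => (key_CG h hJ hp (he p hp)).1 (h1.2 p hp h3), fun h1 => ⟨hJ, fun p hp h3 =>
    (key_CG h hJ hp (he p hp)).2 (h1 p hp h3)⟩⟩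

lemma CG_compl (h : HP P) {J : Finset ℕ} {c e : ℤ} (h1 : CG c e P J) : CG c e P (P \ J) := by
  refine ⟨sdiff_subset, fun p hp h3 => ?_⟩
  by_cases he : (p : ℤ) ∣ e
  · have h0 : (e : ZMod p) = 0 := (ZMod.intCast_zmod_eq_zero_iff_dvd e p).2 he
    refine ⟨fun _ => ?_, fun _ => ?_⟩
    · rw [Int.cast_mul, h0, zero_mul]
      exact IsSquare.zero
    · rw [Int.cast_mul, Int.cast_mul, h0, zero_mul, mul_zero]
      exact IsSquare.zero
  · rw [key_CG h sdiff_subset hp he]
    have h2 := (key_CG h h1.1 hp he).1 (h1.2 p hp h3)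
    have h4 := row_NG hp
    rw [← sum_sdiff h1.1] at h4
    have h5 : ∑ q ∈ P \ J, NG P p q = ∑ q ∈ J, NG P p q := by
      have : ∑ q ∈ P \ J, NG P p q = ∑ q ∈ P \ J, NG P p q +
          (∑ q ∈ J, NG P p q + ∑ q ∈ J, NG P p q) := by rw [z2_self, add_zero]
      rw [this, ← add_assoc, h4, zero_add]
    rw [h5]
    exact h2

lemma ne_P (h : HP P) : P.Nonempty := by
  rw [nonempty_iff_ne_empty]
  intro h0
  have h1 := h.sum
  rw [h0, sum_empty] at h1
  exact zero_ne_one h1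

/-- The right kernel of the matrix. -/
lemma right_MB (h : HP P) {n : ℕ} (hn : ∏ p ∈ P, p = n) (hQ : Qc n) {B : Finset ℕ} (hB : B ⊆ P)
    (h1 : ∀ p ∈ P, ∑ q ∈ B, MB P p q = 0) : B = ∅ ∨ B = P := by
  obtain ⟨p0, hp0⟩ := ne_P h
  obtain ⟨C, hC⟩ : ∃ C : Finset ℕ → Prop,
      ∀ J, C J ↔ ∀ p ∈ P, p ≠ p0 → ∑ q ∈ J, MB P p q = 0 := ⟨_, fun J => Iff.rfl⟩
  have h2 := card_gen (P := P) (fun J => C J)
    (fun p => p ≠ p0) (MB P) (fun J hJ => hC J) (by
      intro B hB hR hk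
      rcases left_MB h hn hQ hB hk with h4 | h4
      · exact h4
      · exact absurd rfl (hR p0 (by rw [h4]; exact hp0)))
  have h3 : (P.filter fun p => ¬ p ≠ p0).card = 1 := by
    rw [card_eq_one]
    refine ⟨p0, ?_⟩
    ext x
    rw [mem_filter, mem_singleton, not_not]
    exact ⟨fun h => h.2, fun h => ⟨h ▸ hp0, h⟩⟩
  replace h2 := h2.trans (congrArg (fun k => 2 ^ k) ((filter_card_eq fun x _ => Iff.rfl).trans h3))
  simp only [pow_one] at h2
  have hne : (∅ : Finset ℕ) ≠ P := (ne_P h).ne_empty.symm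
  have h4 : ({∅, P} : Finset (Finset ℕ)) ⊆
      P.powerset.filter fun J => C J := by
    intro J hJ
    rw [mem_insert, mem_singleton] at hJ
    rw [mem_filter, mem_powerset, hC]
    rcases hJ with rfl | rfl
    · exact ⟨empty_subset _, fun p _ _ => sum_empty⟩
    · exact ⟨Subset.rfl, fun p hp _ => row_MB hp⟩
  have h5 := eq_of_subset_of_card_le h4 (by rw [h2, card_pair hne])
  have h6 : B ∈ P.powerset.filter fun J => C J := by
    rw [mem_filter, mem_powerset, hC]
    exact ⟨hB, fun p hp _ => h1 p hp⟩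
  rw [← h5, mem_insert, mem_singleton] at h6
  exact h6

/-- The left kernel of the matrix `NG`. -/
lemma left_NG (h : HP P) {n : ℕ} (hn : ∏ p ∈ P, p = n) (hQ : Qc n) {B : Finset ℕ} (hB : B ⊆ P)
    (h1 : ∀ q ∈ P, ∑ p ∈ B, NG P p q = 0) : B = ∅ ∨ B = P := by
  refine right_MB h hn hQ hB fun p hp => ?_
  rw [← h1 p hp]
  exact sum_congr rfl fun q hq => (NG_eq h (hB hq) hp).symm

lemma not_dvd_one {p : ℕ} (hp : p.Prime) : ¬ (p : ℤ) ∣ 1 := by
  intro h8
  have h3 : p ∣ 1 := by exact_mod_cast h8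
  exact hp.one_lt.ne' (Nat.dvd_one.1 h3)

theorem t_JD : S_JD := by
  intro n hn hQ J hJ
  obtain ⟨h, hprod⟩ := fm_hp hn
  have h1 := (CG_iff h hJ.1 1 (e := 1) fun p hp => not_dvd_one (h.pr p hp)).1 hJ
  refine left_MB h hprod hQ hJ.1 fun q hq => ?_
  have h2 := h1 q hq (by rw [Int.cast_one]; exact IsSquare.one)
  rw [lg_one, zero_add] at h2
  rw [← h2]
  exact sum_congr rfl fun p hp => (NG_eq h hq (hJ.1 hp)).symm

theorem t_JF : S_JF := by
  intro n hn hQ
  obtain ⟨h, hprod⟩ := fm_hp hn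
  refine ⟨?_, fun J hJ => CG_compl h hJ⟩
  refine card_gen (fun J => CG 2 1 n.primeFactors J) (fun p => IsSquare (2 : ZMod p))
    (NG n.primeFactors) (fun J hJ => ?_) ?_
  · rw [CG_iff h hJ 2 (e := 1) fun p hp => not_dvd_one (h.pr p hp)]
    refine forall_congr' fun p => forall_congr' fun hp => ?_
    rw [lg_one, zero_add, Int.cast_ofNat]
  · intro B hB hR hk
    rcases left_NG h hprod hQ hB hk with h4 | h4
    · exact h4
    · exfalso
      have h5 : ∀ J : Finset ℕ, (∀ p ∈ J, p % 8 = 1 ∨ p % 8 = 7) →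
          (∏ q ∈ J, q) % 8 = 1 ∨ (∏ q ∈ J, q) % 8 = 7 := by
        intro J
        induction J using Finset.induction_on with
        | empty =>
          intro _
          rw [prod_empty]
          norm_num
        | insert a J ha ih =>
          intro h6
          rw [prod_insert ha, Nat.mul_mod]
          rcases h6 a (mem_insert_self _ _) with h7 | h7 <;>
            rcases ih fun p hp => h6 p (mem_insert_of_mem hp) with h8 | h8 <;> rw [h7, h8] <;>
            norm_num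
      have h6 := h5 B fun p hp => by
        have hpp := h.pr p (hB hp)
        have := Fact.mk hpp
        have h7 : p ≠ 2 := by
          rintro rfl
          have := h.odd 2 (hB hp)
          omega
        exact (ZMod.exists_sq_eq_two_iff h7).1 (hR p hp)
      rw [h4, hprod] at h6
      have := hn.2
      omega

/-- The augmented matrix. -/
noncomputable def NA (P : Finset ℕ) (p q : ℕ) : ZMod 2 := if q = 0 then ee p else NG P p q

theorem t_JE : S_JE := by
  intro n hn hQ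
  obtain ⟨h, hprod⟩ := fm_hp hn
  refine ⟨?_, fun J e hJ => CG_compl h hJ⟩
  obtain ⟨P, hP⟩ : ∃ P, P = n.primeFactors := ⟨_, rfl⟩
  rw [← hP] at h hprod ⊢
  have h0 : 0 ∉ P := fun h1 => (h.pr 0 h1).ne_zero rfl
  have hsumNA : ∀ J ⊆ P, ∀ p, ∑ q ∈ J, NA P p q = ∑ q ∈ J, NG P p q := by
    intro J hJ p
    refine sum_congr rfl fun q hq => ?_
    rw [NA, if_neg]
    rintro rfl
    exact h0 (hJ hq)
  obtain ⟨C, hC⟩ : ∃ C : Finset ℕ → Prop,
      ∀ J, C J ↔ ∀ p ∈ P, IsSquare (-2 : ZMod p) → ∑ q ∈ J, NA P p q = 0 :=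
    ⟨_, fun J => Iff.rfl⟩
  have hcnt := card_gen (P := insert 0 P) (fun J => C J)
    (fun p => p ≠ 0 ∧ IsSquare (-2 : ZMod p)) (NA P) (by
      intro J _
      rw [hC]
      constructor
      · intro h1 p hp h2
        exact h1 p ((mem_insert.1 hp).resolve_left h2.1) h2.2
      · intro h1 p hp h2
        exact h1 p (mem_insert_of_mem hp) ⟨fun h3 => h0 (h3 ▸ hp), h2⟩) (by
      intro B hB hR hk
      have hBP : B ⊆ P := fun p hp => (mem_insert.1 (hB hp)).resolve_left (hR p hp).1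
      have h1 : ∀ q ∈ P, ∑ p ∈ B, NG P p q = 0 := by
        intro q hq
        rw [← hk q (mem_insert_of_mem hq)]
        refine sum_congr rfl fun p _ => ?_
        rw [NA, if_neg]
        rintro rfl
        exact h0 hq
      rcases left_NG h hprod hQ hBP h1 with h4 | h4
      · exact h4
      · exfalso
        have h2 := hk 0 (mem_insert_self _ _)
        have h3 : ∑ p ∈ B, NA P p 0 = ∑ p ∈ B, ee p :=
          sum_congr rfl fun p _ => by rw [NA, if_pos rfl]
        rw [h3, h4, h.sum] at h2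
        exact one_ne_zero h2)
  have hfil : (insert 0 P).filter (fun p => ¬ (p ≠ 0 ∧ IsSquare (-2 : ZMod p))) =
      insert 0 (P.filter fun p => ¬ IsSquare (-2 : ZMod p)) := by
    ext x
    rw [mem_filter, mem_insert, mem_insert, mem_filter]
    constructor
    · rintro ⟨h1 | h1, h2⟩
      · exact Or.inl h1
      · by_cases hx : x = 0
        · exact Or.inl hx
        · exact Or.inr ⟨h1, fun h3 => h2 ⟨hx, h3⟩⟩
    · rintro (h1 | ⟨h1, h2⟩)
      · exact ⟨Or.inl h1, fun h3 => h3.1 h1⟩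
      · exact ⟨Or.inr h1, fun h3 => h2 h3.2⟩
  replace hcnt := hcnt.trans (congrArg (fun k => 2 ^ k)
    ((filter_card_eq fun x _ => Iff.rfl).trans (congrArg card hfil)))
  beta_reduce at hcnt
  rw [card_insert_of_notMem (fun h1 => h0 (mem_filter.1 h1).1), pow_succ, mul_comm] at hcnt
  rw [← hcnt, powerset_insert, filter_union, card_union_of_disjoint]
  · congr 1
    · congr 1
      refine filter_congr fun J hJ => ?_
      rw [mem_powerset] at hJ
      rw [hC, CG_iff h hJ (-2) (e := 1) fun p hp => not_dvd_one (h.pr p hp)]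
      refine forall_congr' fun p => forall_congr' fun hp => ?_
      rw [lg_one, zero_add, hsumNA J hJ]
      push_cast
      rfl
    · symm
      rw [filter_image, card_image_of_injOn]
      · congr 1
        refine filter_congr fun J hJ => ?_
        rw [mem_powerset] at hJ
        rw [hC, CG_iff h hJ (-2) (e := -1) fun p hp => not_dvd_neg_one (h.pr p hp)]
        refine forall_congr' fun p => forall_congr' fun hp => ?_
        rw [sum_insert (fun h1 => h0 (hJ h1)), hsumNA J hJ, NA, if_pos rfl,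
          lg_neg_one (h.odd p hp)]
        push_cast
        rfl
      · intro J hJ J' hJ' he
        rw [mem_coe, mem_filter, mem_powerset] at hJ hJ'
        have h1 : (insert 0 J).erase 0 = (insert 0 J').erase 0 := congrArg (fun s => s.erase 0) he
        rwa [erase_insert (fun h1 => h0 (hJ.1 h1)), erase_insert (fun h1 => h0 (hJ'.1 h1))] at h1
  · rw [disjoint_left]
    intro J hJ hJ'
    rw [mem_filter, mem_powerset] at hJ
    rw [mem_filter, mem_image] at hJ'
    obtain ⟨⟨J0, -, rfl⟩, -⟩ := hJ'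
    exact h0 (hJ.1 (mem_insert_self _ _))

end Pool.Agent.N507.SN
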